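import Pool.Agent.Y255.OG.DordL
import Pool.Agent.Y192.OG.StG

/-!
Orders of holomorphic discs (job 1471, helper192): the statement `St_dord`.
-/

set_option autoImplicit false

namespace Pool.Agent.Y255.OG

theorem t_dord : Pool.Agent.Y192.OG.St_dord := by
  intro N n q m X D Q hram u v huv hvne z0 hz0
  exact dord (fun M _ _ u' v' hm hne P hP c hc => hram M u' v' hm hne P hP c hc) huv hvne hz0

end Pool.Agent.Y255.OG
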