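import Pool.Agent.TH152.HY.QMain

/-!
Orders of holomorphic discs (job 1471, helper192).
-/

set_option autoImplicit false

open MvPolynomial Metric Filter Topology

namespace Pool.Agent.Y255.OG

open Pool.Agent.W602.Cov Pool.Agent.W602.Cov.Cover Pool.Agent.W602.Cov.R Pool.Agent.W603.BP
open Pool.Agent.W601.PH Pool.Agent.W602.Cov.G Pool.Agent.W602.GT Pool.Agent.TH152.HY

variable {N n : ℕ}

/-- contact orders at places, for one field and one place -/
def OrbCond {n : ℕ} (Q : MvPolynomial (Fin (n + 1)) ℂ) (q m : ℕ) {M : Type} [Field M] [Algebra ℂ M]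
    (v : Fin (n + 1) → M) (P : FF.Place ℂ M) (c : ℤ) : Prop :=
  ((∃ i, P.ord (v i) ≠ c) → ∃ i, c + m ≤ P.ord (v i)) ∧
    ((∀ i, P.ord (v i) = c) → aeval v Q ≠ 0 → P.ord (aeval v Q) ≠ q * c + 1)

theorem dord {X D : BiSet N n} {Q : MvPolynomial (Fin (n + 1)) ℂ} {q m : ℕ}
    (hram : ∀ (M : Type) [Field M] [Algebra ℂ M] (u : Fin (N + 1) → M) (v : Fin (n + 1) → M),
      X.Mem u v → (∀ i, v i ≠ 0) → ∀ P : FF.Place ℂ M, ¬ CentreIn D u v P → ∀ c : ℤ, Norm P v c →
      OrbCond Q q m v P c)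
    {u : ℂ → Fin (N + 1) → ℂ} {v : ℂ → Fin (n + 1) → ℂ} (huv : QDisc X D u v)
    (hvne : ∀ i, ∃ z ∈ ball (0 : ℂ) 1 \ {0}, v z i ≠ 0) {z0 : ℂ}
    (hz0' : z0 ∈ ball (0 : ℂ) 1 \ {0}) :
    ((∃ i, v z0 i = 0) → ∃ i, (m : ℕ∞) ≤ analyticOrderAt (fun z => v z i) z0) ∧
    ((∀ i, v z0 i ≠ 0) → analyticOrderAt (fun z => eval (v z) Q) z0 ≠ 1) := by
  have hz0 : z0 ∈ PB 1 := mem_disc.mp hz0'
  have hopen : IsOpen (PB 1) := PB_open 1
  have hu := fun j => an_of_diffOn huv.diffu j
  have hv := fun j => an_of_diffOn huv.diffv j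
  have hmemz : ∀ z ∈ PB 1, QMem X D (u z) (v z) := fun z hz => huv.mem z (mem_disc.mpr hz)
  obtain ⟨L, _, _, P, T, hT, hord⟩ := point_place hopen (PB_preconn one_pos) hz0
  have hTne : ∀ f : Aly (PB 1), f ≠ 0 → T f ≠ 0 := by
    intro f hf h0
    apply hf
    apply hT
    rw [h0, map_zero]
  let U : Fin (N + 1) → Aly (PB 1) := fun j => mk (fun z => u z j) (hu j)
  let W : Fin (n + 1) → Aly (PB 1) := fun j => mk (fun z => v z j) (hv j)
  have hext : ∀ f g : Aly (PB 1), (∀ z : PB 1, evs z f = evs z g) → f = g :=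
    fun f g h => Subtype.ext (funext h)
  have hrep : ∀ (f : ℂ → ℂ) (hf : AnalyticOnNhd ℂ f (PB 1)),
      analyticOrderAt (rep (PB 1) (mk f hf)) z0 = analyticOrderAt f z0 := by
    intro f hf
    refine analyticOrderAt_congr ?_
    filter_upwards [hopen.mem_nhds hz0] with z hz
    exact rep_mk f hf z hz
  -- polynomials
  have hpoly : ∀ G : BiPoly N n, ∀ z : PB 1,
      evs z (aeval (Sum.elim U W) G) = eval (Sum.elim (u z) (v z)) G := by
    intro G z
    have h7 : evs z (aeval (Sum.elim U W) G) = aeval (fun s => evs z (Sum.elim U W s)) G := by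
      rw [← AlgHom.comp_apply, comp_aeval]
    rw [h7]
    have h8 : (fun s => evs z (Sum.elim U W s)) = Sum.elim (u z) (v z) := by
      funext s
      rcases s with s | s <;> rfl
    rw [h8]
    rfl
  have hTpoly : ∀ G : BiPoly N n, aeval (Sum.elim (fun j => T (U j)) (fun j => T (W j))) G
      = T (aeval (Sum.elim U W) G) := by
    intro G
    rw [← AlgHom.comp_apply, comp_aeval]
    congr 2
    funext s
    rcases s with s | s <;> rfl
  have hpolyQ : ∀ z : PB 1, evs z (aeval W Q) = eval (v z) Q := by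
    intro z
    have h7 : evs z (aeval W Q) = aeval (fun s => evs z (W s)) Q := by
      rw [← AlgHom.comp_apply, comp_aeval]
    rw [h7]
    rfl
  have hTpolyQ : aeval (fun j => T (W j)) Q = T (aeval W Q) := by
    rw [← AlgHom.comp_apply, comp_aeval]
  have hmem : X.Mem (fun j => T (U j)) (fun j => T (W j)) := by
    obtain ⟨⟨ha, hb, _⟩, _⟩ := hmemz z0 hz0
    refine ⟨?_, ?_, ?_⟩
    · intro h0
      apply ha
      funext j
      by_contra hj
      exact hTne (U j) (mk_ne (hu j) hz0 hj) (congrFun h0 j)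
    · intro h0
      apply hb
      funext j
      by_contra hj
      exact hTne (W j) (mk_ne (hv j) hz0 hj) (congrFun h0 j)
    · intro G hG
      have h5 : aeval (Sum.elim U W) G = (0 : Aly (PB 1)) := by
        apply hext
        intro z
        rw [map_zero, hpoly]
        exact (hmemz z z.2).1.2.2 G hG
      rw [hTpoly, h5, map_zero]
  have horder0 : ∀ (f : ℂ → ℂ) (hf : AnalyticOnNhd ℂ f (PB 1)), f z0 ≠ 0 →
      P.ord (T (mk f hf)) = 0 := by
    intro f hf hne
    rw [(hord _ (mk_ne hf hz0 hne)).2, hrep f hf, (hf z0 hz0).analyticOrderAt_eq_zero.mpr hne]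
    rfl
  have hnonneg : ∀ f : Aly (PB 1), f ≠ 0 → 0 ≤ P.ord (T f) := by
    intro f hf
    rw [(hord _ hf).2]
    exact Int.natCast_nonneg _
  have hn0 : ∀ {k : ℕ} (x : ℂ → Fin k → ℂ) (hx : ∀ j, AnalyticOnNhd ℂ (fun z => x z j) (PB 1)),
      x z0 ≠ 0 → Norm P (fun j => T (mk (fun z => x z j) (hx j))) 0 := by
    intro k x hx h0
    refine ⟨fun j hj => hnonneg _ fun h1 => hj (by
      show T (mk (fun z => x z j) (hx j)) = 0
      rw [h1, map_zero]), ?_⟩
    obtain ⟨j, hj⟩ := Function.ne_iff.mp h0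
    exact ⟨j, hTne _ (mk_ne (hx j) hz0 hj), horder0 _ (hx j) hj⟩
  have hNa : Norm P (fun j => T (U j)) 0 := hn0 u hu (hmemz z0 hz0).1.1
  have hNb : Norm P (fun j => T (W j)) 0 := hn0 v hv (hmemz z0 hz0).1.2.1
  have hWne' : ∀ i, W i ≠ 0 := by
    intro i
    obtain ⟨z, hz, hzi⟩ := hvne i
    exact mk_ne (hv i) (mem_disc.mp hz) hzi
  have hcenD : ¬ CentreIn D (fun j => T (U j)) (fun j => T (W j)) P := by
    intro hcen
    apply (hmemz z0 hz0).2
    refine ⟨(hmemz z0 hz0).1.1, (hmemz z0 hz0).1.2.1, fun G hG => ?_⟩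
    obtain ⟨E, E', hE⟩ := D.hom G hG
    by_contra hne
    have hne' : evs ⟨z0, hz0⟩ (aeval (Sum.elim U W) G) ≠ 0 := by
      rw [hpoly]
      exact hne
    have hG0 : aeval (Sum.elim U W) G ≠ 0 := by
      intro h0
      rw [h0, map_zero] at hne'
      exact hne' rfl
    rcases hcen 0 0 hNa hNb G hG E E' hE with h1 | h1
    · rw [hTpoly] at h1
      exact hTne _ hG0 h1
    · rw [hTpoly, (hord _ hG0).2] at h1
      have h2 : analyticOrderAt (rep (PB 1) (aeval (Sum.elim U W) G)) z0 = 0 := by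
        rw [(rep_an _ z0 hz0).analyticOrderAt_eq_zero, ← rep_eq _ ⟨z0, hz0⟩]
        exact hne'
      rw [h2] at h1
      simp at h1
  have hkey := hram L (fun j => T (U j)) (fun j => T (W j)) hmem
    (fun i => hTne _ (hWne' i)) P hcenD 0 hNb
  have hordW : ∀ i, analyticOrderAt (fun z => v z i) z0 ≠ ⊤ ∧
      P.ord (T (W i)) = ((analyticOrderAt (fun z => v z i) z0).toNat : ℤ) := by
    intro i
    have h1 := hord _ (hWne' i)
    rw [show W i = mk (fun z => v z i) (hv i) from rfl, hrep] at h1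
    exact h1
  constructor
  · rintro ⟨i, hi⟩
    have h1 : analyticOrderAt (fun z => v z i) z0 ≠ 0 := by
      intro h0
      exact ((hv i z0 hz0).analyticOrderAt_eq_zero.mp h0) hi
    obtain ⟨j, hj⟩ := hkey.1 ⟨i, by
      show P.ord (T (W i)) ≠ 0
      rw [(hordW i).2]
      intro h2
      have h3 : (analyticOrderAt (fun z => v z i) z0).toNat = 0 := by exact_mod_cast h2
      rcases (ENat.toNat_eq_zero.mp h3) with h4 | h4
      · exact h1 h4
      · exact (hordW i).1 h4⟩
    refine ⟨j, ?_⟩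
    have hj' : ((0 : ℤ) + m) ≤ P.ord (T (W j)) := hj
    rw [(hordW j).2, zero_add] at hj'
    have hj2 : m ≤ (analyticOrderAt (fun z => v z j) z0).toNat := by exact_mod_cast hj'
    rw [← ENat.natCast_toNat (hordW j).1]
    exact_mod_cast hj2
  · intro hall h1
    have hcg : analyticOrderAt (fun z => eval (v z) Q) z0
        = analyticOrderAt (rep (PB 1) (aeval W Q)) z0 := by
      refine analyticOrderAt_congr ?_
      filter_upwards [hopen.mem_nhds hz0] with z hz
      rw [← rep_eq (aeval W Q) ⟨z, hz⟩]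
      exact (hpolyQ ⟨z, hz⟩).symm
    have hQne : aeval W Q ≠ 0 := by
      intro h0
      have h2 : (fun z => eval (v z) Q) =ᶠ[𝓝 z0] fun _ => 0 := by
        filter_upwards [hopen.mem_nhds hz0] with z hz
        rw [← hpolyQ ⟨z, hz⟩, h0, map_zero]
      have h3 : analyticOrderAt (fun z => eval (v z) Q) z0 = ⊤ := by
        rw [analyticOrderAt_congr h2, analyticOrderAt_eq_top]
        simp
      rw [h3] at h1
      exact absurd h1 (by simp)
    refine hkey.2 (fun i => horder0 _ (hv i) (hall i)) ?_ ?_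
    · rw [hTpolyQ]
      exact hTne _ hQne
    · rw [hTpolyQ, (hord _ hQne).2, ← hcg, h1]
      simp

end Pool.Agent.Y255.OG
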